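import Pool.Agent.H490R3.LC.Sigma

set_option autoImplicit false

namespace Pool.Agent.Results.MP_188e7a_gt.LinearKOmega

open Set Topology

universe u v

/-- `C_p(X)`: the real continuous functions on `X` with the topology of pointwise convergence
(the subspace topology of the product `X → ℝ`), as a linear subspace of `X → ℝ`. -/
def Cp (X : Type u) [TopologicalSpace X] : Submodule ℝ (X → ℝ) where
  carrier := {f | Continuous f}
  add_mem' := fun hf hg => Continuous.add hf hg
  zero_mem' := continuous_zero
  smul_mem' := fun c _ hf => Continuous.const_smul hf c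

/-- A condensation is a continuous bijection. -/
def IsCondensation {A : Type u} {B : Type v} [TopologicalSpace A] [TopologicalSpace B]
    (φ : A → B) : Prop :=
  Continuous φ ∧ Function.Bijective φ

/-- `X` is a `k_ω`-space: it is the union of countably many compact sets `K n`, and a set is
closed as soon as its intersection with every `K n` is closed. -/
def IsKOmega (X : Type u) [TopologicalSpace X] : Prop :=
  ∃ K : ℕ → Set X, (∀ n, IsCompact (K n)) ∧ (⋃ n, K n) = univ ∧
    ∀ A : Set X, (∀ n, IsClosed (A ∩ K n)) → IsClosed A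

/-- Let `X`, `Y` be Tychonoff spaces such that `C_p(X)` has a linear condensation onto `C_p(Y)`
and `C_p(Y)` has a linear condensation onto `C_p(X)`. If `X` is a `k_ω`-space (for instance
compact, or locally compact and σ-compact), then `Y` is σ-compact. -/
theorem result {X : Type u} {Y : Type v} [TopologicalSpace X] [TopologicalSpace Y]
    [T35Space X] [T35Space Y] (hX : IsKOmega X)
    (hXY : ∃ L : Cp X →ₗ[ℝ] Cp Y, IsCondensation L)
    (hYX : ∃ M : Cp Y →ₗ[ℝ] Cp X, IsCondensation M) : SigmaCompactSpace Y := by
  obtain ⟨L, hL, hLb⟩ := hXY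
  obtain ⟨M, hM, hMb⟩ := hYX
  obtain ⟨K, hK, hcov, hcl⟩ := hX
  have hacc : ∀ n, IsCompact (Set.accumulate K n) := fun n => isCompact_accumulate hK n
  refine H490LC.komega_case (Set.accumulate K) hacc monotone_accumulate ?_ ?_ L hL hLb M hM hMb
  · intro x
    have hx : x ∈ ⋃ n, K n := hcov ▸ mem_univ x
    obtain ⟨n, hn⟩ := mem_iUnion.1 hx
    exact ⟨n, subset_accumulate hn⟩
  · intro f hf
    rw [continuous_iff_isClosed]
    intro C hC
    apply hcl
    intro n
    have h1 : IsClosed (Set.accumulate K n ∩ f ⁻¹' C) :=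
      (hf n).preimage_isClosed_of_isClosed (hacc n).isClosed hC
    have h2 : f ⁻¹' C ∩ K n = (Set.accumulate K n ∩ f ⁻¹' C) ∩ K n := by
      ext x
      constructor
      · rintro ⟨hx1, hx2⟩
        exact ⟨⟨subset_accumulate hx2, hx1⟩, hx2⟩
      · rintro ⟨⟨-, hx1⟩, hx2⟩
        exact ⟨hx1, hx2⟩
    rw [h2]
    exact h1.inter (hK n).isClosed

end Pool.Agent.Results.MP_188e7a_gt.LinearKOmega
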